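import Mathlib

/-!
# A real sequence with the chi inequality whose reciprocal sum exceeds that of the chi sequence

The sequence is `9/10, 11/5, 21/5, 31/5` followed by `chi 5, chi 6, ...`.
-/

set_option autoImplicit false

namespace Pool.Agent.Results.MP_22eee4_an.RealSequenceBeatsChi

/-- The greedy sequence: `chi 1 = 1` and, for `i > 1`, `chi i` is the largest value of
`(j + 1) * (i - chi j)` over `1 ≤ j ≤ i - 1` (below `i` is written `n + 2` and `j` is written
`m + 1`); `chi 0 = 0` is a dummy value. -/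
def chi : ℕ → ℤ
  | 0 => 0
  | 1 => 1
  | (n + 2) => Finset.univ.sup' Finset.univ_nonempty
      (fun m : Fin (n + 1) => (((m : ℕ) : ℤ) + 2) * (((n : ℕ) : ℤ) + 2 - chi ((m : ℕ) + 1)))
  decreasing_by
    have := m.isLt
    omega

lemma chi_one : chi 1 = 1 := by
  rw [chi]

lemma chi_succ_succ (n : ℕ) : chi (n + 2) = Finset.univ.sup' Finset.univ_nonempty
      (fun m : Fin (n + 1) => (((m : ℕ) : ℤ) + 2) * (((n : ℕ) : ℤ) + 2 - chi ((m : ℕ) + 1))) := by
  rw [chi]

lemma chi_ge {i j : ℕ} (hj : 1 ≤ j) (hij : j < i) : ((j : ℤ) + 1) * (i - chi j) ≤ chi i := by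
  obtain ⟨n, rfl⟩ : ∃ n, i = n + 2 := ⟨i - 2, by omega⟩
  obtain ⟨m, rfl⟩ : ∃ m, j = m + 1 := ⟨j - 1, by omega⟩
  rw [chi_succ_succ n]
  have h := Finset.le_sup' (s := Finset.univ)
    (fun m : Fin (n + 1) => (((m : ℕ) : ℤ) + 2) * (((n : ℕ) : ℤ) + 2 - chi ((m : ℕ) + 1)))
    (Finset.mem_univ (⟨m, by omega⟩ : Fin (n + 1)))
  refine le_trans (le_of_eq ?_) h
  push_cast
  ring

lemma chi_lower {i : ℕ} (hi : 1 ≤ i) : (i : ℤ) ≤ chi i := by
  rcases Nat.lt_or_ge 1 i with h | h
  · have := chi_ge (i := i) (j := 1) le_rfl h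
    rw [chi_one] at this
    push_cast at this
    omega
  · have : i = 1 := by omega
    subst this
    rw [chi_one]
    norm_num

lemma chi_upper {i : ℕ} (hi : 1 ≤ i) : 4 * chi i ≤ ((i : ℤ) + 1) ^ 2 := by
  rcases Nat.lt_or_ge 1 i with h | h
  · obtain ⟨n, rfl⟩ : ∃ n, i = n + 2 := ⟨i - 2, by omega⟩
    have key : chi (n + 2) ≤ ((n : ℤ) + 3) ^ 2 / 4 := by
      rw [chi_succ_succ n]
      refine Finset.sup'_le _ _ ?_
      intro m _
      have h1 := chi_lower (i := (m : ℕ) + 1) (by omega)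
      push_cast at h1
      rw [Int.le_ediv_iff_mul_le (by norm_num)]
      have h2 : (((m : ℕ) : ℤ) + 2) * (((n : ℕ) : ℤ) + 2 - chi ((m : ℕ) + 1)) ≤
          (((m : ℕ) : ℤ) + 2) * (((n : ℕ) : ℤ) + 2 - (((m : ℕ) : ℤ) + 1)) := by
        apply mul_le_mul_of_nonneg_left _ (by positivity)
        linarith
      nlinarith [sq_nonneg (2 * (((m : ℕ) : ℤ)) + 1 - n)]
    have := Int.mul_le_of_le_ediv (by norm_num) key
    push_cast
    linarith
  · have : i = 1 := by omega
    subst this
    rw [chi_one]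
    norm_num

lemma chi_two : chi 2 = 2 := by
  refine le_antisymm ?_ ?_
  · have := chi_upper (i := 2) (by norm_num)
    push_cast at this
    omega
  · simpa using chi_lower (i := 2) (by norm_num)

lemma chi_three : chi 3 = 4 := by
  refine le_antisymm ?_ ?_
  · have := chi_upper (i := 3) (by norm_num)
    push_cast at this
    omega
  · have := chi_ge (i := 3) (j := 1) le_rfl (by norm_num)
    rw [chi_one] at this
    norm_num at this
    exact this

lemma chi_four : chi 4 = 6 := by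
  refine le_antisymm ?_ ?_
  · have := chi_upper (i := 4) (by norm_num)
    push_cast at this
    omega
  · have := chi_ge (i := 4) (j := 1) le_rfl (by norm_num)
    rw [chi_one] at this
    norm_num at this
    exact this

lemma chi_ge_real {i j : ℕ} (hj : 1 ≤ j) (hij : j < i) :
    ((j : ℝ) + 1) * (i - chi j) ≤ chi i := by
  have := chi_ge hj hij
  exact_mod_cast this

lemma chi_lower_real {i : ℕ} (hi : 1 ≤ i) : (i : ℝ) ≤ chi i := by
  have := chi_lower hi
  exact_mod_cast this

/-- growth of the chi sequence -/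
lemma chi_growth {k : ℕ} (hk : 4 ≤ k) : (3 / 8 : ℝ) * (k : ℝ) ^ (3 / 2 : ℝ) ≤ chi k := by
  have hs2 : 2 ≤ Nat.sqrt k := by
    rw [Nat.le_sqrt]; omega
  obtain ⟨j, hj⟩ : ∃ j, Nat.sqrt k = j + 1 := ⟨Nat.sqrt k - 1, by omega⟩
  have hj1 : 1 ≤ j := by omega
  have hsq : (j + 1) * (j + 1) ≤ k := by
    rw [← hj]; exact Nat.sqrt_le k
  have hlt : k < (j + 1 + 1) * (j + 1 + 1) := by
    have := Nat.sqrt_lt_self (n := k)
    have h2 := Nat.lt_succ_sqrt k
    rw [hj] at h2
    simpa using h2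
  have hjk : j < k := by nlinarith
  have h1 := chi_ge_real hj1 hjk
  have h2 : 4 * (chi j : ℝ) ≤ ((j : ℝ) + 1) ^ 2 := by
    have := chi_upper hj1
    exact_mod_cast this
  have hsqR : ((j : ℝ) + 1) ^ 2 ≤ k := by
    have : (((j + 1) * (j + 1) : ℕ) : ℝ) ≤ k := by exact_mod_cast hsq
    push_cast at this
    nlinarith
  have h3 : ((j : ℝ) + 1) * (3 / 4 * k) ≤ chi k := by
    refine le_trans ?_ h1
    apply mul_le_mul_of_nonneg_left _ (by positivity)
    linarith
  have hk0 : (0 : ℝ) ≤ k := Nat.cast_nonneg k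
  have hrt : (k : ℝ) ^ (3 / 2 : ℝ) = k * Real.sqrt k := by
    rw [Real.sqrt_eq_rpow, show (3 / 2 : ℝ) = 1 + 1 / 2 by norm_num,
      Real.rpow_add (by exact_mod_cast (by omega : 0 < k)), Real.rpow_one]
  have hs : Real.sqrt k ≤ (j : ℝ) + 2 := by
    rw [Real.sqrt_le_left (by positivity)]
    have : ((k : ℕ) : ℝ) ≤ (((j + 1 + 1) * (j + 1 + 1) : ℕ) : ℝ) := by exact_mod_cast hlt.le
    push_cast at this
    nlinarith
  have hjR : (1 : ℝ) ≤ j := by exact_mod_cast hj1
  have hs' : Real.sqrt k ≤ 2 * ((j : ℝ) + 1) := by linarith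
  rw [hrt]
  nlinarith [mul_le_mul_of_nonneg_left hs' hk0]

lemma summable_chi : Summable (fun k : ℕ => 1 / (chi (k + 1) : ℝ)) := by
  rw [← summable_nat_add_iff 3]
  have hb : Summable (fun k : ℕ => (8 / 3 : ℝ) * (1 / ((k + 4 : ℕ) : ℝ) ^ (3 / 2 : ℝ))) := by
    refine Summable.mul_left _ ?_
    exact (summable_nat_add_iff 4).2
      ((Real.summable_one_div_nat_rpow (p := 3 / 2)).2 (by norm_num))
  refine Summable.of_nonneg_of_le ?_ ?_ hb
  · intro k
    have := chi_lower_real (i := k + 3 + 1) (by omega)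
    have h0 : (0 : ℝ) ≤ ((k + 3 + 1 : ℕ) : ℝ) := Nat.cast_nonneg _
    exact div_nonneg zero_le_one (h0.trans this)
  · intro k
    have h := chi_growth (k := k + 3 + 1) (by omega)
    have hpos : (0 : ℝ) < ((k + 3 + 1 : ℕ) : ℝ) ^ (3 / 2 : ℝ) := by positivity
    calc 1 / (chi (k + 3 + 1) : ℝ) ≤ 1 / (3 / 8 * ((k + 3 + 1 : ℕ) : ℝ) ^ (3 / 2 : ℝ)) :=
          one_div_le_one_div_of_le (by positivity) h
      _ = (8 / 3 : ℝ) * (1 / ((k + 4 : ℕ) : ℝ) ^ (3 / 2 : ℝ)) := by
          rw [show k + 3 + 1 = k + 4 by ring]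
          field_simp

/-- the modified sequence -/
noncomputable def seq (k : ℕ) : ℝ :=
  if k = 1 then 9 / 10 else if k = 2 then 11 / 5 else if k = 3 then 21 / 5
  else if k = 4 then 31 / 5 else chi k

lemma seq_one : seq 1 = 9 / 10 := by simp [seq]
lemma seq_two : seq 2 = 11 / 5 := by simp [seq]
lemma seq_three : seq 3 = 21 / 5 := by simp [seq]
lemma seq_four : seq 4 = 31 / 5 := by simp [seq]
lemma seq_of_ge {k : ℕ} (hk : 5 ≤ k) : seq k = chi k := by
  have h1 : k ≠ 1 := by omega
  have h2 : k ≠ 2 := by omega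
  have h3 : k ≠ 3 := by omega
  have h4 : k ≠ 4 := by omega
  simp [seq, h1, h2, h3, h4]

lemma small_cases {j : ℕ} (hj : 1 ≤ j) (hj5 : j < 5) : j = 1 ∨ j = 2 ∨ j = 3 ∨ j = 4 := by omega

lemma seq_ineq (i j : ℕ) (hi : 1 ≤ i) (hj : 1 ≤ j) :
    ((j : ℝ) + 1) * i ≤ ((j : ℝ) + 1) * seq j + seq i := by
  rcases Nat.lt_or_ge j 5 with hj5 | hj5
  · rcases Nat.lt_or_ge i 5 with hi5 | hi5
    · rcases small_cases hi hi5 with rfl | rfl | rfl | rfl <;>
        rcases small_cases hj hj5 with rfl | rfl | rfl | rfl <;>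
        norm_num [seq_one, seq_two, seq_three, seq_four]
    · rw [seq_of_ge hi5]
      have hiR : (5 : ℝ) ≤ i := by exact_mod_cast hi5
      rcases small_cases hj hj5 with rfl | rfl | rfl | rfl
      · have h2 := chi_ge_real (i := i) (j := 2) (by norm_num) (by omega)
        rw [chi_two] at h2
        rw [seq_one]
        push_cast at h2 ⊢
        linarith
      · have h2 := chi_ge_real (i := i) (j := 2) (by norm_num) (by omega)
        rw [chi_two] at h2
        rw [seq_two]
        push_cast at h2 ⊢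
        linarith
      · have h2 := chi_ge_real (i := i) (j := 3) (by norm_num) (by omega)
        rw [chi_three] at h2
        rw [seq_three]
        push_cast at h2 ⊢
        linarith
      · have h2 := chi_ge_real (i := i) (j := 4) (by norm_num) (by omega)
        rw [chi_four] at h2
        rw [seq_four]
        push_cast at h2 ⊢
        linarith
  · rw [seq_of_ge hj5]
    have hjj := chi_lower_real hj
    rcases Nat.lt_or_ge j i with hji | hji
    · rw [seq_of_ge (by omega)]
      have := chi_ge_real hj hji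
      nlinarith
    · have hij : (i : ℝ) ≤ j := by exact_mod_cast hji
      have hpos : 0 ≤ seq i := by
        rcases Nat.lt_or_ge i 5 with hi5 | hi5
        · rcases small_cases hi hi5 with rfl | rfl | rfl | rfl <;>
            norm_num [seq_one, seq_two, seq_three, seq_four]
        · rw [seq_of_ge hi5]
          exact (Nat.cast_nonneg i).trans (chi_lower_real hi)
      have : ((j : ℝ) + 1) * i ≤ ((j : ℝ) + 1) * chi j :=
        mul_le_mul_of_nonneg_left (hij.trans hjj) (by positivity)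
      linarith

/-- **The chi sequence does not maximise the reciprocal sum among real sequences.**
There is a real sequence `a` with the chi inequality, with convergent reciprocal sum, whose
reciprocal sum exceeds the (finite) reciprocal sum of the chi sequence by more than `1/21`. -/
theorem result : ∃ a : ℕ → ℝ,
    (∀ i j : ℕ, 1 ≤ i → 1 ≤ j → ((j : ℝ) + 1) * a j + a i ≥ ((j : ℝ) + 1) * i) ∧
    Summable (fun k : ℕ => 1 / (chi (k + 1) : ℝ)) ∧
    Summable (fun k : ℕ => 1 / a (k + 1)) ∧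
    (∑' k : ℕ, 1 / (chi (k + 1) : ℝ)) + 1 / 21 < ∑' k : ℕ, 1 / a (k + 1) := by
  have hsum := summable_chi
  have htail : ∀ k : ℕ, 1 / seq (k + 4 + 1) = 1 / (chi (k + 4 + 1) : ℝ) := by
    intro k
    rw [seq_of_ge (by omega)]
  have hsum2 : Summable (fun k : ℕ => 1 / seq (k + 1)) := by
    rw [← summable_nat_add_iff 4]
    have := (summable_nat_add_iff 4).2 hsum
    refine this.congr ?_
    intro k
    exact (htail k).symm
  refine ⟨seq, fun i j hi hj => seq_ineq i j hi hj, hsum, hsum2, ?_⟩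
  rw [← hsum.sum_add_tsum_nat_add 4, ← hsum2.sum_add_tsum_nat_add 4]
  have heq : ∑' k : ℕ, 1 / seq (k + 4 + 1) = ∑' k : ℕ, 1 / (chi (k + 4 + 1) : ℝ) :=
    tsum_congr htail
  rw [heq]
  simp only [Finset.sum_range_succ, Finset.sum_range_zero, zero_add, Nat.reduceAdd, seq_one,
    seq_two, seq_three, seq_four, chi_one, chi_two, chi_three, chi_four]
  push_cast
  linarith

end Pool.Agent.Results.MP_22eee4_an.RealSequenceBeatsChi
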